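import Pool.Agent.L0h24.SS.L2
import Pool.Agent.L0h24.Uni.Main

set_option autoImplicit false

/-! Families of lines whose derivative has simple real eigenvalues. -/

open MeasureTheory Set Metric Topology
open scoped ENNReal NNReal

namespace Pool.Agent.L0h24.SS

open Pool.Agent.H810R3.Tub

variable {d : ℕ}

/-- The norm of the sum of the indicators and the iterated integral. -/
theorem eLp_Fe {ι : Type} [Fintype ι] (δ : ℝ) (v β : ι → Vec d) (s : ι → ℝ) {q : ℝ} (hq0 : 0 < q) :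
    eLpNorm (fun y : Space d => ∑ i,
        (tube δ (dir (v i)) (WithLp.toLp 2 (β i + s i • v i, s i))).indicator (fun _ => (1 : ℝ)) y)
        (ENNReal.ofReal q) volume =
      (∫⁻ t : ℝ, ∫⁻ x : Vec d, Fe δ v β s x t ^ q) ^ (1 / q) := by
  set f : Space d → ℝ := fun y => ∑ i,
    (tube δ (dir (v i)) (WithLp.toLp 2 (β i + s i • v i, s i))).indicator (fun _ => (1 : ℝ)) y with hf
  have hfm : Measurable f := by
    apply Finset.measurable_sum
    intro i _
    exact measurable_const.indicator (tube_closed _ _ _).measurableSet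
  have hmp := WithLp.volume_preserving_toLp (Vec d) ℝ
  have hS : ∫⁻ y : Space d, ‖f y‖ₑ ^ q = ∫⁻ t : ℝ, ∫⁻ x : Vec d, Fe δ v β s x t ^ q := by
    have hg : Measurable (fun y : Space d => ‖f y‖ₑ ^ q) := hfm.enorm.pow_const _
    rw [← hmp.lintegral_comp hg]
    have hg2 : Measurable (fun p : Vec d × ℝ => ‖f (WithLp.toLp 2 p)‖ₑ ^ q) := hg.comp hmp.measurable
    rw [Measure.volume_eq_prod, lintegral_prod_symm _ hg2.aemeasurable]
    refine lintegral_congr fun t => lintegral_congr fun x => ?_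
    rw [hf]
    simp only
    rw [enorm_sum]
  have hp0 : ENNReal.ofReal q ≠ 0 := by
    rw [ne_eq, ENNReal.ofReal_eq_zero, not_le]
    exact hq0
  rw [eLpNorm_eq_lintegral_rpow_enorm_toReal hp0 ENNReal.ofReal_ne_top, ENNReal.toReal_ofReal hq0.le, hS]

/-- The `L²` inequality and the inequality of Q1 at the exponent `q`, with the constant `C`. -/
def Ineq (q C δ : ℝ) {ι : Type} [Fintype ι] (v β : ι → Vec d) (s : ι → ℝ) : Prop :=
  eLpNorm (fun y : Space d => ∑ i,
      (tube δ (dir (v i)) (WithLp.toLp 2 (β i + s i • v i, s i))).indicator (fun _ => (1 : ℝ)) y)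
      (ENNReal.ofReal 2) volume ≤
    ENNReal.ofReal (C * (δ ^ d * (Fintype.card ι * (1 + Real.log (Fintype.card ι)))) ^ (1 / (2 : ℝ))) ∧
  eLpNorm (fun y : Space d => ∑ i,
      (tube δ (dir (v i)) (WithLp.toLp 2 (β i + s i • v i, s i))).indicator (fun _ => (1 : ℝ)) y)
      (ENNReal.ofReal q) volume ≤
    ENNReal.ofReal (C * (δ ^ ((d : ℝ) / q) * (Fintype.card ι : ℝ) ^ (1 - 1 / (q * d))))

/-- From the exponent `2` to all exponents in the range of Q1. -/
theorem to_q (hd : 2 ≤ d) {q : ℝ} (hq : ((d : ℝ) + 1) / d < q) {C₀ : ℝ} (hC₀ : 0 < C₀) :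
    ∃ C : ℝ, 0 < C ∧ ∀ δ : ℝ, 0 < δ → ∀ (ι : Type) [Fintype ι] (v β : ι → Vec d) (s : ι → ℝ),
      ∫⁻ t : ℝ, ∫⁻ x : Vec d, Fe δ v β s x t ^ (2 : ℝ) ≤
        ENNReal.ofReal (C₀ * (δ ^ d * (Fintype.card ι * (1 + Real.log (Fintype.card ι))))) →
      Ineq q C δ v β s := by
  have hd1 : 1 ≤ d := by omega
  have hd0 : (0 : ℝ) < d := by exact_mod_cast hd1
  have hd2 : (2 : ℝ) ≤ d := by exact_mod_cast hd
  have hq0 : 0 < q := lt_trans (by positivity) hq
  have hdq : (d : ℝ) + 1 < q * d := by rwa [div_lt_iff₀ hd0] at hq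
  set m : ℝ := max (q - 2) 0 with hm
  have hm0 : 0 ≤ m := le_max_right _ _
  set γ : ℝ := q - 1 / d - 1 - m with hγ
  have hγ0 : 0 < γ := by
    rw [hγ, hm]
    have h1 : 1 / (d : ℝ) < 1 := by
      rw [div_lt_one hd0]; linarith
    rcases le_total q 2 with h2 | h2
    · rw [max_eq_right (by linarith)]
      have h3 : 1 / (d : ℝ) + 1 < q := by
        have : ((d : ℝ) + 1) / d = 1 / d + 1 := by field_simp; ring
        rw [← this]; exact hq
      linarith
    · rw [max_eq_left (by linarith)]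
      linarith
  set E : ℝ := C₀ * (1 + 1 / γ) with hE
  have hE0 : 0 < E := by positivity
  refine ⟨C₀ ^ (1 / (2 : ℝ)) + E ^ (1 / q), by positivity, ?_⟩
  intro δ hδ ι _ v β s hl2
  rcases isEmpty_or_nonempty ι with he | hne
  · have : (fun y : Space d => ∑ i,
            (tube δ (dir (v i)) (WithLp.toLp 2 (β i + s i • v i, s i))).indicator (fun _ => (1 : ℝ)) y) =
          fun _ => 0 := by
      funext y
      simp
    unfold Ineq
    rw [this, eLpNorm_zero', eLpNorm_zero']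
    exact ⟨zero_le, zero_le⟩
  have hN1' : 1 ≤ Fintype.card ι := Fintype.card_pos
  have hN1 : (1 : ℝ) ≤ (Fintype.card ι : ℝ) := by exact_mod_cast hN1'
  unfold Ineq
  set N : ℝ := (Fintype.card ι : ℝ) with hN
  have hN0 : 0 < N := by linarith
  have hlog0 : 0 ≤ Real.log N := Real.log_nonneg hN1
  constructor
  · rw [eLp_Fe δ v β s two_pos]
    calc (∫⁻ t : ℝ, ∫⁻ x : Vec d, Fe δ v β s x t ^ (2 : ℝ)) ^ (1 / (2 : ℝ))
        ≤ ENNReal.ofReal (C₀ * (δ ^ d * (N * (1 + Real.log N)))) ^ (1 / (2 : ℝ)) :=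
          ENNReal.rpow_le_rpow hl2 (by norm_num)
      _ = ENNReal.ofReal (C₀ ^ (1 / (2 : ℝ)) * (δ ^ d * (N * (1 + Real.log N))) ^ (1 / (2 : ℝ))) := by
          rw [ENNReal.ofReal_rpow_of_nonneg (by positivity) (by norm_num),
            Real.mul_rpow hC₀.le (by positivity)]
      _ ≤ _ := by
          apply ENNReal.ofReal_le_ofReal
          apply mul_le_mul_of_nonneg_right _ (by positivity)
          have : 0 ≤ E ^ (1 / q) := by positivity
          linarith
  have hmono : ENNReal.ofReal (E ^ (1 / q) * (δ ^ ((d : ℝ) / q) * N ^ (1 - 1 / (q * d)))) ≤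
      ENNReal.ofReal ((C₀ ^ (1 / (2 : ℝ)) + E ^ (1 / q)) * (δ ^ ((d : ℝ) / q) * N ^ (1 - 1 / (q * d)))) := by
    apply ENNReal.ofReal_le_ofReal
    apply mul_le_mul_of_nonneg_right _ (by positivity)
    have : 0 ≤ C₀ ^ (1 / (2 : ℝ)) := by positivity
    linarith
  refine le_trans ?_ hmono
  rw [eLp_Fe δ v β s hq0, Pool.Agent.L0h24.Uni.conv hd1 hq0 (by positivity) hδ hN0.le,
    ← Real.rpow_mul hE0.le, one_div, inv_mul_cancel₀ hq0.ne', Real.rpow_one]
  calc ∫⁻ t : ℝ, ∫⁻ x : Vec d, Fe δ v β s x t ^ q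
      ≤ ∫⁻ t : ℝ, ∫⁻ x : Vec d, ENNReal.ofReal (N ^ m) * Fe δ v β s x t ^ (2 : ℝ) :=
        lintegral_mono fun t => lintegral_mono fun x => Fe_pow δ v β s x t hq0
    _ = ENNReal.ofReal (N ^ m) * ∫⁻ t : ℝ, ∫⁻ x : Vec d, Fe δ v β s x t ^ (2 : ℝ) := by
        rw [← lintegral_const_mul' _ _ ENNReal.ofReal_ne_top]
        refine lintegral_congr fun t => ?_
        rw [lintegral_const_mul' _ _ ENNReal.ofReal_ne_top]
    _ ≤ ENNReal.ofReal (N ^ m) * ENNReal.ofReal (C₀ * (δ ^ d * (N * (1 + Real.log N)))) :=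
        mul_le_mul_right hl2 _
    _ = ENNReal.ofReal (N ^ m * (C₀ * (δ ^ d * (N * (1 + Real.log N))))) :=
        (ENNReal.ofReal_mul (by positivity)).symm
    _ ≤ ENNReal.ofReal (E * (δ ^ d * N ^ (q - 1 / (d : ℝ)))) := by
        apply ENNReal.ofReal_le_ofReal
        have h2 : 1 + Real.log N ≤ (1 + 1 / γ) * N ^ γ := by
          have h3 := Real.log_le_rpow_div hN0.le hγ0
          have h4 : 1 ≤ N ^ γ := Real.one_le_rpow hN1 hγ0.le
          have h5 : N ^ γ / γ = 1 / γ * N ^ γ := by ring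
          rw [add_mul, one_mul, ← h5]
          linarith
        have h7 : N ^ m * (N * N ^ γ) = N ^ (q - 1 / (d : ℝ)) := by
          rw [← Real.rpow_one_add' hN0.le (by positivity), ← Real.rpow_add hN0]
          congr 1
          rw [hγ]; ring
        calc N ^ m * (C₀ * (δ ^ d * (N * (1 + Real.log N))))
            ≤ N ^ m * (C₀ * (δ ^ d * (N * ((1 + 1 / γ) * N ^ γ)))) := by gcongr
          _ = E * (δ ^ d * (N ^ m * (N * N ^ γ))) := by
              rw [hE]; ring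
          _ = _ := by rw [h7]

/-- The `L²` bound for families which are close to one linear map with simple real eigenvalues. -/
theorem localL2 (hd : 2 ≤ d) {I : Set ℝ} (hI : IsClosed I) (Λ : Vec d →L[ℝ] Vec d)
    (hΛ : SimpleOn I Λ) : ∃ η : ℝ, 0 < η ∧ ∀ κ : ℝ, 0 ≤ κ → ∃ C : ℝ, 0 < C ∧ ∀ δ : ℝ, 0 < δ → δ < 1 →
      ∀ (ι : Type) [Fintype ι] (v β : ι → Vec d) (s : ι → ℝ), (∀ i, ‖v i‖ ≤ 1) →
        (∀ i, Icc (s i - 3 / 2) (s i + 3 / 2) ⊆ I) → Near Λ η κ δ v β →
        (∀ i j, i ≠ j → δ ≤ ‖dir (v i) - dir (v j)‖) →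
        ∫⁻ t : ℝ, ∫⁻ x : Vec d, Fe δ v β s x t ^ (2 : ℝ) ≤
          ENNReal.ofReal (C * (δ ^ d * (Fintype.card ι * (1 + Real.log (Fintype.card ι))))) := by
  classical
  have hd1 : 1 ≤ d := by omega
  obtain ⟨η, hη, hsh⟩ := shell hd1 hI Λ hΛ
  have hd0 : (0 : ℝ) < d := by exact_mod_cast hd1
  refine ⟨η, hη, ?_⟩
  intro κ hκ
  obtain ⟨M, hM0, hM⟩ := hsh κ hκ
  have hom := om_pos (d := d)
  refine ⟨2 ^ d * om d * (19 + 16 * M), by positivity, ?_⟩
  intro δ hδ hδ1 ι _ v β s hv hsI hnear hsep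
  rcases isEmpty_or_nonempty ι with he | hne
  · have : ∀ x t, Fe δ v β s x t = 0 := by
      intro x t
      unfold Fe
      simp
    simp only [this]
    rw [ENNReal.zero_rpow_of_pos two_pos]
    simp
  have hN1' : 1 ≤ Fintype.card ι := Fintype.card_pos
  have hN1 : (1 : ℝ) ≤ (Fintype.card ι : ℝ) := by exact_mod_cast hN1'
  have hsep' : ∀ i j, i ≠ j → δ ≤ ‖v i - v j‖ := fun i j hij => (hsep i j hij).trans (dir_sub_le _ _)
  set B : ℝ := M * (1 + Real.log (Fintype.card ι)) + 1 with hB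
  have hrow : ∀ i, ∑ j ∈ Finset.univ.filter (fun j => j ≠ i ∧ Inc I δ v β i j), δ / ‖v j - v i‖ ≤ B := by
    intro i
    apply sum_inv (Fintype.card ι) hN1' _ (Finset.card_le_univ _) (fun j => ‖v j - v i‖) hδ
    · intro j hj
      exact hsep' j i (Finset.mem_filter.1 hj).2.1
    · exact hM0.le
    · intro l
      refine le_trans ?_ (hM δ hδ ι v β hnear hsep' i (l * δ))
      have : ((Finset.univ.filter (fun j => j ≠ i ∧ Inc I δ v β i j)).filter
          fun j => l * δ ≤ ‖v j - v i‖ ∧ ‖v j - v i‖ < l * δ + δ) ⊆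
          Finset.univ.filter fun j => Inc I δ v β i j ∧ l * δ ≤ ‖v j - v i‖ ∧ ‖v j - v i‖ < l * δ + δ := by
        intro j hj
        obtain ⟨h1, h2⟩ := Finset.mem_filter.1 hj
        exact Finset.mem_filter.2 ⟨Finset.mem_univ _, (Finset.mem_filter.1 h1).2.2, h2⟩
      exact_mod_cast Finset.card_le_card this
  have hl2 := l2 hδ hδ1 v β s hv hsep' hsI hrow
  refine hl2.trans (ENNReal.ofReal_le_ofReal ?_)
  set N : ℝ := (Fintype.card ι : ℝ) with hN
  have hN0 : 0 < N := by linarith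
  have hlog0 : 0 ≤ Real.log N := Real.log_nonneg hN1
  have h1 : 3 + 16 * B ≤ (19 + 16 * M) * (1 + Real.log N) := by
    rw [hB]; nlinarith
  calc (2 * δ) ^ d * om d * (N * (3 + 16 * B))
      ≤ (2 * δ) ^ d * om d * (N * ((19 + 16 * M) * (1 + Real.log N))) := by gcongr
    _ = _ := by rw [mul_pow]; ring

/-- The bounds for families which are close to one linear map with simple real eigenvalues. -/
theorem localBound (hd : 2 ≤ d) {I : Set ℝ} (hI : IsClosed I) (Λ : Vec d →L[ℝ] Vec d)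
    (hΛ : SimpleOn I Λ) : ∃ η : ℝ, 0 < η ∧ ∀ κ : ℝ, 0 ≤ κ → ∀ q : ℝ, ((d : ℝ) + 1) / d < q →
      ∃ C : ℝ, 0 < C ∧ ∀ δ : ℝ, 0 < δ → δ < 1 →
      ∀ (ι : Type) [Fintype ι] (v β : ι → Vec d) (s : ι → ℝ), (∀ i, ‖v i‖ ≤ 1) →
        (∀ i, Icc (s i - 3 / 2) (s i + 3 / 2) ⊆ I) → Near Λ η κ δ v β →
        (∀ i j, i ≠ j → δ ≤ ‖dir (v i) - dir (v j)‖) → Ineq q C δ v β s := by
  obtain ⟨η, hη, h⟩ := localL2 hd hI Λ hΛ
  refine ⟨η, hη, fun κ hκ q hq => ?_⟩
  obtain ⟨C₀, hC₀, h1⟩ := h κ hκ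
  obtain ⟨C, hC, h2⟩ := to_q hd hq hC₀
  exact ⟨C, hC, fun δ hδ hδ1 ι _ v β s hv hsI hn hs => h2 δ hδ ι v β s (h1 δ hδ hδ1 ι v β s hv hsI hn hs)⟩

/-- The bounds for families of lines whose derivative has simple real eigenvalues on a compact set. -/
theorem globalBound (hd : 2 ≤ d) {I : Set ℝ} (hI : IsClosed I) {Ω : Set (Vec d)} (hΩ : IsCompact Ω)
    (hΩ1 : ∀ v ∈ Ω, ‖v‖ ≤ 1)
    {b : Vec d → Vec d} {D : Vec d → Vec d →L[ℝ] Vec d} (hb : ∀ v ∈ Ω, HasStrictFDerivAt b (D v) v)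
    (hD : ∀ v ∈ Ω, SimpleOn I (D v)) {K : ℝ} (hK : 0 ≤ K) {q : ℝ} (hq : ((d : ℝ) + 1) / d < q) :
    ∃ C : ℝ, 0 < C ∧ ∀ δ : ℝ, 0 < δ → δ < 1 → ∀ (ι : Type) [Fintype ι] (v β : ι → Vec d) (s : ι → ℝ),
      (∀ i, v i ∈ Ω) → (∀ i, Icc (s i - 3 / 2) (s i + 3 / 2) ⊆ I) → (∀ i, ‖β i - b (v i)‖ ≤ K * δ) →
        (∀ i j, i ≠ j → δ ≤ ‖dir (v i) - dir (v j)‖) → Ineq q C δ v β s := by
  classical
  have hd1 : 1 ≤ d := by omega
  have hd0 : (0 : ℝ) < d := by exact_mod_cast hd1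
  -- the local bounds
  have hloc : ∀ w : Vec d, ∃ η C : ℝ, 0 < η ∧ 0 < C ∧ (w ∈ Ω → ∀ δ : ℝ, 0 < δ → δ < 1 →
      ∀ (ι : Type) [Fintype ι] (v β : ι → Vec d) (s : ι → ℝ), (∀ i, ‖v i‖ ≤ 1) →
        (∀ i, Icc (s i - 3 / 2) (s i + 3 / 2) ⊆ I) → Near (D w) η (2 * K) δ v β →
        (∀ i j, i ≠ j → δ ≤ ‖dir (v i) - dir (v j)‖) →
        ∫⁻ t : ℝ, ∫⁻ x : Vec d, Fe δ v β s x t ^ (2 : ℝ) ≤
          ENNReal.ofReal (C * (δ ^ d * (Fintype.card ι * (1 + Real.log (Fintype.card ι)))))) := by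
    intro w
    by_cases hw : w ∈ Ω
    · obtain ⟨η, hη, h⟩ := localL2 hd hI (D w) (hD w hw)
      obtain ⟨C, hC, h2⟩ := h (2 * K) (by positivity)
      exact ⟨η, C, hη, hC, fun _ => h2⟩
    · exact ⟨1, 1, one_pos, one_pos, fun h => absurd h hw⟩
  choose η C hη hC hbd using hloc
  have hU : ∀ w : Vec d, ∃ U : Set (Vec d), (w ∈ Ω → U ∈ 𝓝 w ∧
      ∀ x ∈ U, ∀ y ∈ U, ‖b x - b y - D w (x - y)‖ ≤ η w * ‖x - y‖) := by
    intro w
    by_cases hw : w ∈ Ω
    · obtain ⟨U, hU, hap⟩ := (hb w hw).approximates_deriv_on_nhds (c := ⟨η w, (hη w).le⟩) (Or.inr (hη w))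
      exact ⟨U, fun _ => ⟨hU, fun x hx y hy => hap x hx y hy⟩⟩
    · exact ⟨∅, fun h => absurd h hw⟩
  choose U hU using hU
  obtain ⟨T, hTΩ, hT⟩ := hΩ.elim_nhds_subcover U (fun w hw => (hU w hw).1)
  set Q : ℝ := ∑ w ∈ T, C w ^ (1 / (2 : ℝ)) with hQ
  have hQ0 : 0 ≤ Q := Finset.sum_nonneg fun w _ => by have := hC w; positivity
  obtain ⟨C', hC', hto⟩ := to_q hd hq (C₀ := (1 + Q) ^ (2 : ℝ)) (by positivity)
  refine ⟨C', hC', ?_⟩
  intro δ hδ hδ1 ι _ v β s hv hsI hβ hsep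
  apply hto δ hδ ι v β s
  rcases isEmpty_or_nonempty ι with he | hne
  · have : ∀ x t, Fe δ v β s x t = 0 := by
      intro x t
      unfold Fe
      simp
    simp only [this]
    rw [ENNReal.zero_rpow_of_pos two_pos]
    simp
  have hN1' : 1 ≤ Fintype.card ι := Fintype.card_pos
  have hN1 : (1 : ℝ) ≤ (Fintype.card ι : ℝ) := by exact_mod_cast hN1'
  set G : ι → Space d → ℝ := fun i => (tube δ (dir (v i)) (WithLp.toLp 2 (β i + s i • v i, s i))).indicator
    (fun _ => (1 : ℝ)) with hG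
  have hGm : ∀ i, Measurable (G i) := fun i => measurable_const.indicator (tube_closed _ _ _).measurableSet
  have hcl : ∀ i, ∃ w, w ∈ T ∧ v i ∈ U w := by
    intro i
    have := hT (hv i)
    simp only [mem_iUnion, exists_prop] at this
    exact this
  choose cl hclT hclU using hcl
  set N : ℝ := (Fintype.card ι : ℝ) with hN
  have hN0 : 0 < N := by linarith
  have hlog0 : 0 ≤ Real.log N := Real.log_nonneg hN1
  set X : ℝ := δ ^ d * (N * (1 + Real.log N)) with hX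
  have hX0 : 0 ≤ X := by positivity
  have hcell : ∀ c ∈ T, eLpNorm (fun y => ∑ i ∈ Finset.univ.filter (fun i => cl i = c), G i y)
      (ENNReal.ofReal 2) volume ≤ ENNReal.ofReal (C c ^ (1 / (2 : ℝ)) * X ^ (1 / (2 : ℝ))) := by
    intro c hc
    have key := hbd c (hTΩ c hc) δ hδ hδ1 {i // cl i = c} (fun i => v i.1) (fun i => β i.1)
      (fun i => s i.1) (fun i => hΩ1 _ (hv i.1)) (fun i => hsI i.1) (by
        intro i j
        have hi : v i.1 ∈ U c := by
          have := hclU i.1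
          rwa [i.2] at this
        have hj : v j.1 ∈ U c := by
          have := hclU j.1
          rwa [j.2] at this
        have h1 := (hU c (hTΩ c hc)).2 _ hi _ hj
        calc ‖(β i.1 - β j.1) - D c (v i.1 - v j.1)‖
            = ‖(b (v i.1) - b (v j.1) - D c (v i.1 - v j.1)) + ((β i.1 - b (v i.1)) - (β j.1 - b (v j.1)))‖ := by
              congr 1; abel
          _ ≤ ‖b (v i.1) - b (v j.1) - D c (v i.1 - v j.1)‖ + ‖(β i.1 - b (v i.1)) - (β j.1 - b (v j.1))‖ :=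
              norm_add_le _ _
          _ ≤ η c * ‖v i.1 - v j.1‖ + (K * δ + K * δ) := by
              refine add_le_add h1 ((norm_sub_le _ _).trans (add_le_add (hβ i.1) (hβ j.1)))
          _ = _ := by ring)
      (fun i j hij => hsep i.1 j.1 (fun h => hij (Subtype.ext h)))
    have e1 : (fun y => ∑ i ∈ Finset.univ.filter (fun i => cl i = c), G i y) =
        fun y : Space d => ∑ i : {i // cl i = c}, (tube δ (dir (v i.1))
          (WithLp.toLp 2 (β i.1 + s i.1 • v i.1, s i.1))).indicator (fun _ => (1 : ℝ)) y := by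
      funext y
      exact Finset.sum_subtype _ (by simp) (fun i => G i y)
    rw [e1, eLp_Fe δ (fun i : {i // cl i = c} => v i.1) (fun i => β i.1) (fun i => s i.1) two_pos]
    have hn : ((Fintype.card {i // cl i = c} : ℝ) * (1 + Real.log (Fintype.card {i // cl i = c}))) ≤
        N * (1 + Real.log N) := by
      have h2 : (Fintype.card {i // cl i = c} : ℝ) ≤ N := by
        rw [hN]
        exact_mod_cast Fintype.card_subtype_le _
      rcases Nat.eq_zero_or_pos (Fintype.card {i // cl i = c}) with h0 | h0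
      · rw [h0, Nat.cast_zero, zero_mul]
        positivity
      · have h3 : (0 : ℝ) < Fintype.card {i // cl i = c} := by exact_mod_cast h0
        have h4 := Real.log_le_log h3 h2
        have h5 : (1 : ℝ) ≤ Fintype.card {i // cl i = c} := by exact_mod_cast h0
        have h6 := Real.log_nonneg h5
        gcongr
    calc _ ≤ ENNReal.ofReal (C c * (δ ^ d * (Fintype.card {i // cl i = c} *
            (1 + Real.log (Fintype.card {i // cl i = c}))))) ^ (1 / (2 : ℝ)) :=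
          ENNReal.rpow_le_rpow key (by norm_num)
      _ ≤ ENNReal.ofReal (C c * X) ^ (1 / (2 : ℝ)) := by
          apply ENNReal.rpow_le_rpow _ (by norm_num)
          apply ENNReal.ofReal_le_ofReal
          have := (hC c).le
          rw [hX]
          gcongr
      _ = _ := by
          rw [ENNReal.ofReal_rpow_of_nonneg (mul_nonneg (hC c).le hX0) (by norm_num),
            Real.mul_rpow (hC c).le hX0]
  have hsum : (fun y : Space d => ∑ i, G i y) =
      ∑ c ∈ T, (fun y => ∑ i ∈ Finset.univ.filter (fun i => cl i = c), G i y) := by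
    funext y
    rw [Finset.sum_apply]
    exact (Finset.sum_fiberwise_of_maps_to (fun i _ => hclT i) (fun i => G i y)).symm
  have hfin : eLpNorm (fun y : Space d => ∑ i, G i y) (ENNReal.ofReal 2) volume ≤
      ENNReal.ofReal (((1 + Q) ^ (2 : ℝ) * X) ^ (1 / (2 : ℝ))) := by
    rw [hsum]
    refine (eLpNorm_sum_le (fun c _ => (Finset.measurable_sum _ (fun i _ => hGm i)).aestronglyMeasurable)
      (by rw [← ENNReal.ofReal_one]; exact ENNReal.ofReal_le_ofReal one_le_two)).trans ?_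
    calc
      ∑ c ∈ T, eLpNorm (fun y => ∑ i ∈ Finset.univ.filter (fun i => cl i = c), G i y)
          (ENNReal.ofReal 2) volume
        ≤ ∑ c ∈ T, ENNReal.ofReal (C c ^ (1 / (2 : ℝ)) * X ^ (1 / (2 : ℝ))) := Finset.sum_le_sum hcell
      _ = ENNReal.ofReal (Q * X ^ (1 / (2 : ℝ))) := by
          rw [← ENNReal.ofReal_sum_of_nonneg (fun c _ => by have := hC c; positivity), Finset.sum_mul]
      _ ≤ ENNReal.ofReal (((1 + Q) ^ (2 : ℝ) * X) ^ (1 / (2 : ℝ))) := by
          apply ENNReal.ofReal_le_ofReal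
          rw [Real.mul_rpow (by positivity) hX0, ← Real.rpow_mul (by positivity)]
          norm_num
          apply mul_le_mul_of_nonneg_right _ (by positivity)
          linarith
  rw [eLp_Fe δ v β s two_pos, ← ENNReal.ofReal_rpow_of_nonneg (by positivity) (by norm_num)] at hfin
  exact (ENNReal.rpow_le_rpow_iff (by norm_num)).1 hfin

end Pool.Agent.L0h24.SS
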