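import Pool.Agent.L0h24.SS.LemK

set_option autoImplicit false

/-! Families close to a linear map with simple real eigenvalues: the tubes which meet a given tube. -/

open MeasureTheory Set Metric Topology

namespace Pool.Agent.L0h24.SS

open Pool.Agent.H810R3.Tub

variable {d : ℕ}

/-- Two tubes which meet a third one: separation of the slopes. -/
theorem sepj {I : Set ℝ} (hI : IsClosed I) (Λ : Vec d →L[ℝ] Vec d) (hΛ : SimpleOn I Λ) :
    ∃ η : ℝ, 0 < η ∧ ∃ A : ℝ, 1 ≤ A ∧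
    ∀ (κ δ : ℝ) (a a' c c' : Vec d) (t t' : ℝ), t ∈ I → 0 ≤ κ → 0 < δ →
      ‖c - Λ a‖ ≤ η * ‖a‖ + κ * δ → ‖(c - c') - Λ (a - a')‖ ≤ η * ‖a - a'‖ + κ * δ →
      ‖c + t • a‖ ≤ 4 * δ → ‖c' + t' • a'‖ ≤ 4 * δ →
      A * ((κ + 4) * δ) ≤ ‖a‖ → 0 < ‖a'‖ → ‖‖a‖⁻¹ • a - ‖a'‖⁻¹ • a'‖ ≤ 1 / A →
      ‖a - a'‖ ≤ A * (|‖a‖ - ‖a'‖| + (κ + 8) * δ) := by
  obtain ⟨η₀, hη₀, hη₁, C, hC, hK⟩ := lemK hI Λ hΛ
  have hC0 : 0 < C := by linarith
  set E : ℝ := 2 * ‖Λ‖ + 1 with hE
  have hΛ0 : 0 ≤ ‖Λ‖ := norm_nonneg _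
  have hE0 : 0 < E := by positivity
  set η : ℝ := min (η₀ / 4) (1 / (4 * C)) with hη
  set η' : ℝ := min (η₀ / (2 * E)) (1 / (4 * C)) with hη'
  have hη0 : 0 < η := lt_min (by positivity) (by positivity)
  have hη'0 : 0 < η' := lt_min (by positivity) (by positivity)
  have b1 : η ≤ η₀ / 4 := min_le_left _ _
  have b2 : η ≤ 1 / (4 * C) := min_le_right _ _
  have b3 : η' ≤ η₀ / (2 * E) := min_le_left _ _
  have b4 : η' ≤ 1 / (4 * C) := min_le_right _ _
  set A : ℝ := max (max (1 / η) (1 / η')) (2 * C) with hA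
  have c1 : 1 / η ≤ A := (le_max_left _ _).trans (le_max_left _ _)
  have c2 : 1 / η' ≤ A := (le_max_right _ _).trans (le_max_left _ _)
  have c3 : 2 * C ≤ A := le_max_right _ _
  have hA1 : 1 ≤ A := by linarith
  have hA0 : 0 < A := by linarith
  refine ⟨η, hη0, A, hA1, ?_⟩
  intro κ δ a a' c c' t t' htI hκ hδ h1 h2 h3 h4 h5 h6 h7
  have hAη : 1 / A ≤ η := by
    rw [div_le_comm₀ hA0 hη0]; exact c1
  have hAη' : 1 / A ≤ η' := by
    rw [div_le_comm₀ hA0 hη'0]; exact c2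
  set r : ℝ := ‖a‖ with hr
  set r' : ℝ := ‖a'‖ with hr'
  have hr0 : 0 < r := lt_of_lt_of_le (by positivity) h5
  set e : Vec d := r⁻¹ • a with he
  set e' : Vec d := r'⁻¹ • a' with he'
  have hae : a = r • e := by rw [he, smul_smul, mul_inv_cancel₀ hr0.ne', one_smul]
  have hae' : a' = r' • e' := by rw [he', smul_smul, mul_inv_cancel₀ h6.ne', one_smul]
  have ne : ‖e‖ = 1 := by rw [he, norm_smul, norm_inv, norm_norm, inv_mul_cancel₀ hr0.ne']
  have ne' : ‖e'‖ = 1 := by rw [he', norm_smul, norm_inv, norm_norm, inv_mul_cancel₀ h6.ne']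
  clear_value e e'
  have s0 : (κ + 4) * δ ≤ η * r := by
    calc (κ + 4) * δ = (1 / A) * (A * ((κ + 4) * δ)) := by field_simp
      _ ≤ η * r := by gcongr
  -- `(Λ + t) e` is small
  have s1 : ‖Λ e + t • e‖ ≤ 2 * η := by
    have : Λ e + t • e = r⁻¹ • ((c + t • a) - (c - Λ a)) := by
      rw [he, map_smul]
      rw [show (c + t • a) - (c - Λ a) = Λ a + t • a by abel, smul_add, smul_comm t]
    rw [this, norm_smul, norm_inv, norm_norm]
    rw [inv_mul_le_iff₀ hr0]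
    calc ‖(c + t • a) - (c - Λ a)‖ ≤ ‖c + t • a‖ + ‖c - Λ a‖ := norm_sub_le _ _
      _ ≤ 4 * δ + (η * r + κ * δ) := add_le_add h3 h1
      _ = (κ + 4) * δ + η * r := by ring
      _ ≤ η * r + η * r := by linarith
      _ = r * (2 * η) := by ring
  have ht : |t| ≤ ‖Λ‖ + 1 := by
    have k1 : ‖t • e‖ = |t| := by rw [norm_smul, ne, mul_one, Real.norm_eq_abs]
    have k2 : ‖t • e‖ ≤ ‖Λ e + t • e‖ + ‖Λ e‖ := by
      calc ‖t • e‖ = ‖(Λ e + t • e) - Λ e‖ := by congr 1; abel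
        _ ≤ _ := norm_sub_le _ _
    have k3 : ‖Λ e‖ ≤ ‖Λ‖ := by
      have := Λ.le_opNorm e
      rwa [ne, mul_one] at this
    rw [← k1]
    linarith
  have hee : ‖e - e'‖ ≤ η' := h7.trans hAη'
  have s2 : ‖Λ e' + t • e'‖ ≤ η₀ := by
    calc ‖Λ e' + t • e'‖ = ‖(Λ e + t • e) - (Λ (e - e') + t • (e - e'))‖ := by
          congr 1
          rw [map_sub, smul_sub]; abel
      _ ≤ ‖Λ e + t • e‖ + ‖Λ (e - e') + t • (e - e')‖ := norm_sub_le _ _
      _ ≤ 2 * η + (‖Λ‖ * ‖e - e'‖ + (‖Λ‖ + 1) * ‖e - e'‖) := by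
          refine add_le_add s1 ((norm_add_le _ _).trans (add_le_add (Λ.le_opNorm _) ?_))
          rw [norm_smul, Real.norm_eq_abs]
          gcongr
      _ = 2 * η + E * ‖e - e'‖ := by rw [hE]; ring
      _ ≤ 2 * (η₀ / 4) + E * (η₀ / (2 * E)) := by
          gcongr
          exact hee.trans b3
      _ = η₀ := by field_simp; ring
  -- apply the quantitative simplicity
  have s3 := hK t htI e' ne' s2 (a - a') ((t' - t) * r')
  have s4 : ‖Λ (a - a') + t • (a - a') - ((t' - t) * r') • e'‖ ≤ η * ‖a - a'‖ + (κ + 8) * δ := by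
    have : Λ (a - a') + t • (a - a') - ((t' - t) * r') • e' =
        (c + t • a) - (c' + t' • a') - ((c - c') - Λ (a - a')) := by
      rw [mul_smul, ← hae', smul_sub, sub_smul]; abel
    rw [this]
    refine (norm_sub_le _ _).trans ?_
    have := norm_sub_le (c + t • a) (c' + t' • a')
    linarith
  have s5 : |inner ℝ (a - a') e'| ≤ |r - r'| + η' * ‖a - a'‖ := by
    have k1 : inner ℝ (a - a') e' = (r - r') - r * (‖e - e'‖ ^ 2 / 2) := by
      rw [@norm_sub_sq_real, ne, ne']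
      conv_lhs => rw [hae, hae']
      rw [inner_sub_left, inner_smul_left, inner_smul_left, real_inner_self_eq_norm_sq, ne']
      simp only [conj_trivial]
      ring
    have k2 : |r - r'| ≤ ‖a - a'‖ := abs_norm_sub_norm_le _ _
    have k3 : r * ‖e - e'‖ ≤ 2 * ‖a - a'‖ := by
      have : r * ‖e - e'‖ = ‖(a - a') - (r - r') • e'‖ := by
        rw [← abs_of_pos hr0, ← Real.norm_eq_abs, ← norm_smul, Real.norm_eq_abs, abs_of_pos hr0,
          smul_sub, ← hae, sub_smul, ← hae']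
        congr 1
        abel
      rw [this]
      refine (norm_sub_le _ _).trans ?_
      rw [norm_smul, ne', mul_one, Real.norm_eq_abs]
      linarith
    rw [k1]
    calc |(r - r') - r * (‖e - e'‖ ^ 2 / 2)| ≤ |r - r'| + |r * (‖e - e'‖ ^ 2 / 2)| := abs_sub _ _
      _ = |r - r'| + (r * ‖e - e'‖) * ‖e - e'‖ / 2 := by
          rw [abs_of_nonneg (a := r * (‖e - e'‖ ^ 2 / 2)) (by positivity)]; ring
      _ ≤ |r - r'| + (2 * ‖a - a'‖) * η' / 2 := by gcongr
      _ = _ := by ring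
  set Δ : ℝ := ‖a - a'‖ with hΔ
  have hΔ0 : 0 ≤ Δ := norm_nonneg _
  have s6 : Δ ≤ C * (|r - r'| + η' * Δ + (η * Δ + (κ + 8) * δ)) :=
    s3.trans (mul_le_mul_of_nonneg_left (add_le_add s5 s4) hC0.le)
  have s7 : C * (η' * Δ) ≤ Δ / 4 := by
    calc C * (η' * Δ) ≤ C * (1 / (4 * C) * Δ) := by gcongr
      _ = Δ / 4 := by field_simp
  have s8 : C * (η * Δ) ≤ Δ / 4 := by
    calc C * (η * Δ) ≤ C * (1 / (4 * C) * Δ) := by gcongr
      _ = Δ / 4 := by field_simp
  have s9 : 0 ≤ |r - r'| + (κ + 8) * δ := by positivity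
  calc Δ ≤ 2 * C * (|r - r'| + (κ + 8) * δ) := by nlinarith
    _ ≤ A * (|r - r'| + (κ + 8) * δ) := mul_le_mul_of_nonneg_right c3 s9

/-- Packing. -/
theorem packing (hd : 1 ≤ d) {ι : Type} {δ R : ℝ} (hδ : 0 < δ) (hR : δ ≤ R) (v : ι → Vec d)
    (hsep : ∀ i j, i ≠ j → δ ≤ ‖v i - v j‖) (w : Vec d) (J : Finset ι) (hJ : ∀ j ∈ J, ‖v j - w‖ ≤ R) :
    (J.card : ℝ) ≤ (10 * d * R / δ) ^ d := by
  classical
  have hd0 : (0 : ℝ) < d := by exact_mod_cast hd
  have hd1 : (1 : ℝ) ≤ d := by exact_mod_cast hd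
  have hR0 : 0 < R := by linarith
  set ρ : ℝ := δ / (2 * d * R) with hρ
  have hρ0 : 0 < ρ := by positivity
  have hρ1 : ρ ≤ 1 := by
    rw [hρ, div_le_one (by positivity)]
    nlinarith
  have h1 := cell_card hρ0 hρ1 (ι := {j // j ∈ J}) (fun j => R⁻¹ • (v j.1 - w)) (by
    intro j
    rw [norm_smul, norm_inv, Real.norm_eq_abs, abs_of_pos hR0, inv_mul_le_iff₀ hR0, mul_one]
    exact hJ j.1 j.2)
  rw [Finset.card_image_of_injective] at h1
  · rw [Finset.card_univ, Fintype.card_coe] at h1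
    refine h1.trans (le_of_eq ?_)
    congr 1
    rw [hρ]
    field_simp
    norm_num
  · intro j k hjk
    by_contra hne
    have h2 := cell_close hρ0 hjk
    have h3 : R⁻¹ • (v j.1 - w) - R⁻¹ • (v k.1 - w) = R⁻¹ • (v j.1 - v k.1) := by
      rw [← smul_sub]; congr 1; abel
    rw [h3, norm_smul, norm_inv, Real.norm_eq_abs, abs_of_pos hR0, inv_mul_le_iff₀ hR0] at h2
    have h4 := hsep j.1 k.1 (fun h => hne (Subtype.ext h))
    have h5 : R * (d * ρ) = δ / 2 := by rw [hρ]; field_simp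
    rw [h5] at h2
    linarith

/-- The family is close to the linear map `Λ`. -/
def Near (Λ : Vec d →L[ℝ] Vec d) (η κ δ : ℝ) {ι : Type} (v β : ι → Vec d) : Prop :=
  ∀ i j, ‖(β i - β j) - Λ (v i - v j)‖ ≤ η * ‖v i - v j‖ + κ * δ

/-- The tubes `i`, `j` may meet at a height in `I`. -/
def Inc {ι : Type} (I : Set ℝ) (δ : ℝ) (v β : ι → Vec d) (i j : ι) : Prop :=
  ∃ t ∈ I, ‖(β j - β i) + t • (v j - v i)‖ ≤ 4 * δ

open Classical in
/-- The number of tubes in a shell which meet a given tube. -/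
theorem shell (hd : 1 ≤ d) {I : Set ℝ} (hI : IsClosed I) (Λ : Vec d →L[ℝ] Vec d)
    (hΛ : SimpleOn I Λ) : ∃ η : ℝ, 0 < η ∧
    ∀ κ : ℝ, 0 ≤ κ → ∃ M : ℝ, 0 < M ∧ ∀ δ : ℝ, 0 < δ → ∀ (ι : Type) [Fintype ι] (v β : ι → Vec d),
      Near Λ η κ δ v β → (∀ i j, i ≠ j → δ ≤ ‖v i - v j‖) → ∀ (i : ι) (l : ℝ),
        ((Finset.univ.filter fun j => Inc I δ v β i j ∧ l ≤ ‖v j - v i‖ ∧ ‖v j - v i‖ < l + δ).card : ℝ) ≤ M := by
  obtain ⟨η, hη, A, hA, hs⟩ := sepj hI Λ hΛ
  have hd0 : (0 : ℝ) < d := by exact_mod_cast hd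
  have hd1 : (1 : ℝ) ≤ d := by exact_mod_cast hd
  have hA0 : 0 < A := by linarith
  refine ⟨η, hη, ?_⟩
  intro κ hκ
  refine ⟨(10 * d * (A * (κ + 4))) ^ d + (10 * d * (A * (κ + 9))) ^ d * (5 * d * A) ^ d, by positivity, ?_⟩
  intro δ hδ ι _ v β hN hsep i l
  set J : Finset ι := Finset.univ.filter fun j => Inc I δ v β i j ∧ l ≤ ‖v j - v i‖ ∧ ‖v j - v i‖ < l + δ with hJ
  set J₁ := J.filter fun j => ‖v j - v i‖ < A * ((κ + 4) * δ) with hJ₁
  set J₂ := J.filter fun j => ¬ ‖v j - v i‖ < A * ((κ + 4) * δ) with hJ₂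
  have hJ12 : (J.card : ℝ) = J₁.card + J₂.card := by
    rw [← Nat.cast_add]
    congr 1
    exact (Finset.card_filter_add_card_filter_not _).symm
  have h1 : (J₁.card : ℝ) ≤ (10 * d * (A * (κ + 4))) ^ d := by
    have hR : δ ≤ A * ((κ + 4) * δ) := by
      have : 1 ≤ A * (κ + 4) := by nlinarith
      calc δ = 1 * δ := (one_mul δ).symm
        _ ≤ A * (κ + 4) * δ := by gcongr
        _ = _ := by ring
    have := packing hd hδ hR v hsep (v i) J₁ (fun j hj => (Finset.mem_filter.1 hj).2.le)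
    refine this.trans (le_of_eq ?_)
    congr 1
    field_simp
  have h2 : (J₂.card : ℝ) ≤ (10 * d * (A * (κ + 9))) ^ d * (5 * d * A) ^ d := by
    set ρ : ℝ := 1 / (d * A) with hρ
    have hρ0 : 0 < ρ := by positivity
    have hρ1 : ρ ≤ 1 := by
      rw [hρ, div_le_one (by positivity)]
      nlinarith
    set u : ι → Vec d := fun j => ‖v j - v i‖⁻¹ • (v j - v i) with hu
    have hu1 : ∀ j, ‖u j‖ ≤ 1 := by
      intro j
      rw [hu]
      simp only
      rw [norm_smul, norm_inv, norm_norm]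
      exact inv_mul_le_one
    have hc1 := cell_card hρ0 hρ1 u hu1
    set f : ι → Fin d → ℤ := fun j => cell ρ (u j) with hf
    have hfib : ∀ b ∈ Finset.univ.image f, ((J₂.filter fun j => f j = b).card : ℝ) ≤
        (10 * d * (A * (κ + 9))) ^ d := by
      intro b _
      rcases (J₂.filter fun j => f j = b).eq_empty_or_nonempty with he | ⟨k, hk⟩
      · rw [he]
        simp only [Finset.card_empty, Nat.cast_zero]
        positivity
      obtain ⟨hk2, hkb⟩ := Finset.mem_filter.1 hk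
      obtain ⟨hkJ, hkr⟩ := Finset.mem_filter.1 hk2
      obtain ⟨_, ⟨t', _, ht'⟩, hk3, hk4⟩ := Finset.mem_filter.1 hkJ
      have hR : δ ≤ A * ((κ + 9) * δ) := by
        have : 1 ≤ A * (κ + 9) := by nlinarith
        calc δ = 1 * δ := (one_mul δ).symm
          _ ≤ A * (κ + 9) * δ := by gcongr
          _ = _ := by ring
      have := packing hd hδ hR v hsep (v k) (J₂.filter fun j => f j = b) (by
        intro j hj
        obtain ⟨hj2, hjb⟩ := Finset.mem_filter.1 hj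
        obtain ⟨hjJ, hjr⟩ := Finset.mem_filter.1 hj2
        obtain ⟨_, ⟨t, htI, ht⟩, hj3, hj4⟩ := Finset.mem_filter.1 hjJ
        have hcl : ‖u j - u k‖ ≤ 1 / A := by
          refine (cell_close hρ0 (hjb.trans hkb.symm)).trans (le_of_eq ?_)
          rw [hρ]
          field_simp
        have hkr0 : 0 < ‖v k - v i‖ := lt_of_lt_of_le (by positivity) (not_lt.1 hkr)
        have e1 : v j - v i - (v k - v i) = v j - v k := by abel
        have e2 : β j - β i - (β k - β i) = β j - β k := by abel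
        have key := hs κ δ (v j - v i) (v k - v i) (β j - β i) (β k - β i) t t' htI hκ hδ (hN j i)
          (by rw [e1, e2]; exact hN j k) ht ht' (not_lt.1 hjr) hkr0 hcl
        rw [e1] at key
        refine key.trans ?_
        have h3 : |‖v j - v i‖ - ‖v k - v i‖| ≤ δ := by
          rw [abs_le]; constructor <;> linarith
        calc A * (|‖v j - v i‖ - ‖v k - v i‖| + (κ + 8) * δ) ≤ A * (δ + (κ + 8) * δ) := by gcongr
          _ = _ := by ring)
      refine this.trans (le_of_eq ?_)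
      congr 1
      field_simp
    have hsum : (J₂.card : ℝ) = ∑ b ∈ Finset.univ.image f, ((J₂.filter fun j => f j = b).card : ℝ) := by
      rw [← Nat.cast_sum]
      congr 1
      exact Finset.card_eq_sum_card_fiberwise (fun j _ => Finset.mem_coe.2 (Finset.mem_image_of_mem f (Finset.mem_univ j)))
    rw [hsum]
    calc ∑ b ∈ Finset.univ.image f, ((J₂.filter fun j => f j = b).card : ℝ)
        ≤ ∑ _b ∈ Finset.univ.image f, (10 * d * (A * (κ + 9))) ^ d := Finset.sum_le_sum hfib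
      _ = (Finset.univ.image f).card * (10 * d * (A * (κ + 9))) ^ d := by
          rw [Finset.sum_const, nsmul_eq_mul]
      _ ≤ (5 / ρ) ^ d * (10 * d * (A * (κ + 9))) ^ d := by gcongr
      _ = _ := by
          rw [mul_comm]
          congr 2
          rw [hρ]
          field_simp
  rw [hJ12]
  exact add_le_add h1 h2

end Pool.Agent.L0h24.SS
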