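import Pool.Agent.L0h24.SS.Count

set_option autoImplicit false

/-! The `L²` bound from the number of tubes which meet a given tube. -/

open MeasureTheory Set Metric Topology
open scoped ENNReal NNReal

namespace Pool.Agent.L0h24.SS

open Pool.Agent.H810R3.Tub

variable {d : ℕ}

/-- Summation over the shells. -/
theorem sum_inv {ι : Type} (N : ℕ) (hN : 1 ≤ N) (J : Finset ι) (hJ : J.card ≤ N) (r : ι → ℝ) {δ M : ℝ}
    (hδ : 0 < δ) (hr : ∀ j ∈ J, δ ≤ r j) (hM0 : 0 ≤ M)
    (hM : ∀ l : ℕ, ((J.filter fun j => l * δ ≤ r j ∧ r j < l * δ + δ).card : ℝ) ≤ M) :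
    ∑ j ∈ J, δ / r j ≤ M * (1 + Real.log N) + 1 := by
  classical
  set l : ι → ℕ := fun j => ⌊r j / δ⌋₊ with hl
  have hN0 : (0 : ℝ) < N := by exact_mod_cast hN
  rw [← Finset.sum_filter_add_sum_filter_not J (fun j => l j ≤ N)]
  refine add_le_add ?_ ?_
  · have h1 : ∀ j ∈ J.filter (fun j => l j ≤ N), δ / r j ≤ 1 / (l j : ℝ) := by
      intro j hj
      obtain ⟨hj1, hj2⟩ := Finset.mem_filter.1 hj
      have h2 := hr j hj1
      have hr0 : 0 < r j := by linarith
      have h3 : (l j : ℝ) ≤ r j / δ := Nat.floor_le (by positivity)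
      have h4 : 1 ≤ l j := by
        apply Nat.le_floor
        rw [Nat.cast_one, le_div_iff₀ hδ]; linarith
      have h5 : (0 : ℝ) < l j := by exact_mod_cast h4
      rw [div_le_div_iff₀ hr0 h5, one_mul]
      rw [le_div_iff₀ hδ] at h3
      linarith
    have hmaps : ∀ j ∈ J.filter (fun j => l j ≤ N), l j ∈ Finset.Icc 1 N := by
      intro j hj
      obtain ⟨hj1, hj2⟩ := Finset.mem_filter.1 hj
      refine Finset.mem_Icc.2 ⟨?_, hj2⟩
      apply Nat.le_floor
      rw [Nat.cast_one, le_div_iff₀ hδ]
      linarith [hr j hj1]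
    calc ∑ j ∈ J.filter (fun j => l j ≤ N), δ / r j ≤ ∑ j ∈ J.filter (fun j => l j ≤ N), 1 / (l j : ℝ) :=
          Finset.sum_le_sum h1
      _ = ∑ m ∈ Finset.Icc 1 N, ∑ j ∈ (J.filter (fun j => l j ≤ N)).filter (fun j => l j = m), 1 / (l j : ℝ) :=
          (Finset.sum_fiberwise_of_maps_to hmaps _).symm
      _ ≤ ∑ m ∈ Finset.Icc 1 N, M * (1 / (m : ℝ)) := by
          refine Finset.sum_le_sum fun m hm => ?_
          have hm1 : 1 ≤ m := (Finset.mem_Icc.1 hm).1
          have hm0 : (0 : ℝ) < m := by exact_mod_cast hm1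
          calc ∑ j ∈ (J.filter (fun j => l j ≤ N)).filter (fun j => l j = m), 1 / (l j : ℝ)
              = ∑ j ∈ (J.filter (fun j => l j ≤ N)).filter (fun j => l j = m), 1 / (m : ℝ) := by
                refine Finset.sum_congr rfl fun j hj => ?_
                rw [(Finset.mem_filter.1 hj).2]
            _ = (((J.filter (fun j => l j ≤ N)).filter (fun j => l j = m)).card : ℝ) * (1 / (m : ℝ)) := by
                rw [Finset.sum_const, nsmul_eq_mul]
            _ ≤ M * (1 / (m : ℝ)) := by
                apply mul_le_mul_of_nonneg_right _ (by positivity)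
                refine le_trans ?_ (hM m)
                have : (J.filter (fun j => l j ≤ N)).filter (fun j => l j = m) ⊆
                    J.filter fun j => m * δ ≤ r j ∧ r j < m * δ + δ := by
                  intro j hj
                  obtain ⟨hj1, hj2⟩ := Finset.mem_filter.1 hj
                  obtain ⟨hj3, _⟩ := Finset.mem_filter.1 hj1
                  have hrj := hr j hj3
                  have h0 : 0 ≤ r j / δ := by
                    have : 0 < r j := by linarith
                    positivity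
                  have h6 : ((l j : ℕ) : ℝ) ≤ r j / δ := Nat.floor_le h0
                  have h7 : r j / δ < (l j : ℝ) + 1 := Nat.lt_floor_add_one _
                  rw [hj2] at h6 h7
                  rw [le_div_iff₀ hδ] at h6
                  rw [div_lt_iff₀ hδ] at h7
                  exact Finset.mem_filter.2 ⟨hj3, h6, by linarith⟩
                exact_mod_cast Finset.card_le_card this
      _ = M * ∑ m ∈ Finset.Icc 1 N, (1 / (m : ℝ)) := by rw [Finset.mul_sum]
      _ ≤ M * (1 + Real.log N) := by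
          apply mul_le_mul_of_nonneg_left _ hM0
          have h8 := harmonic_le_one_add_log N
          refine le_trans (le_of_eq ?_) h8
          rw [harmonic_eq_sum_Icc]
          push_cast
          refine Finset.sum_congr rfl fun m _ => ?_
          rw [one_div]
  · calc ∑ j ∈ J.filter (fun j => ¬ l j ≤ N), δ / r j ≤ ∑ _j ∈ J.filter (fun j => ¬ l j ≤ N), 1 / (N : ℝ) := by
          refine Finset.sum_le_sum fun j hj => ?_
          obtain ⟨hj1, hj2⟩ := Finset.mem_filter.1 hj
          have hr0 : 0 < r j := by linarith [hr j hj1]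
          have h3 : (l j : ℝ) ≤ r j / δ := Nat.floor_le (by positivity)
          have h4 : (N : ℝ) ≤ l j := by exact_mod_cast (not_le.1 hj2).le
          rw [div_le_div_iff₀ hr0 hN0, one_mul]
          rw [le_div_iff₀ hδ] at h3
          nlinarith
      _ = ((J.filter (fun j => ¬ l j ≤ N)).card : ℝ) * (1 / (N : ℝ)) := by
          rw [Finset.sum_const, nsmul_eq_mul]
      _ ≤ N * (1 / (N : ℝ)) := by
          apply mul_le_mul_of_nonneg_right _ (by positivity)
          exact_mod_cast (Finset.card_filter_le _ _).trans hJ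
      _ = 1 := by field_simp

/-- The heights at which the tubes `i`, `j` may meet. -/
def It {ι : Type} (δ : ℝ) (v β : ι → Vec d) (s : ι → ℝ) (i j : ι) : Set ℝ :=
  Icc (s i - 3 / 2) (s i + 3 / 2) ∩ {t | ‖(β j - β i) + t • (v j - v i)‖ ≤ 4 * δ}

theorem It_meas {ι : Type} (δ : ℝ) (v β : ι → Vec d) (s : ι → ℝ) (i j : ι) :
    MeasurableSet (It δ v β s i j) := by
  apply IsClosed.measurableSet
  apply isClosed_Icc.inter
  exact isClosed_le (by fun_prop) continuous_const

theorem It_self {ι : Type} (δ : ℝ) (v β : ι → Vec d) (s : ι → ℝ) (i j : ι) :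
    volume (It δ v β s i j) ≤ ENNReal.ofReal 3 := by
  refine (measure_mono inter_subset_left).trans ?_
  rw [Real.volume_Icc]
  apply ENNReal.ofReal_le_ofReal
  linarith

theorem It_empty {ι : Type} {I : Set ℝ} {δ : ℝ} {v β : ι → Vec d} {s : ι → ℝ} {i j : ι}
    (hs : Icc (s i - 3 / 2) (s i + 3 / 2) ⊆ I) (h : ¬ Inc I δ v β i j) :
    volume (It δ v β s i j) = 0 := by
  have : It δ v β s i j = ∅ := by
    apply eq_empty_of_forall_notMem
    intro t ht
    exact h ⟨t, hs ht.1, ht.2⟩
  rw [this, measure_empty]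

theorem It_le {ι : Type} {δ : ℝ} (hδ : 0 < δ) {v β : ι → Vec d} {s : ι → ℝ} {i j : ι}
    (h : δ ≤ ‖v j - v i‖) : volume (It δ v β s i j) ≤ ENNReal.ofReal (16 * (δ / ‖v j - v i‖)) := by
  rcases (It δ v β s i j).eq_empty_or_nonempty with he | ⟨t₀, ht₀⟩
  · rw [he, measure_empty]
    exact zero_le
  have hr : 0 < ‖v j - v i‖ := by linarith
  have hsub : It δ v β s i j ⊆ Icc (t₀ - 8 * (δ / ‖v j - v i‖)) (t₀ + 8 * (δ / ‖v j - v i‖)) := by
    intro t ht
    have h1 : |t - t₀| * ‖v j - v i‖ ≤ 8 * δ := by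
      rw [← Real.norm_eq_abs, ← norm_smul]
      calc ‖(t - t₀) • (v j - v i)‖
          = ‖((β j - β i) + t • (v j - v i)) - ((β j - β i) + t₀ • (v j - v i))‖ := by
            congr 1
            rw [sub_smul]; abel
        _ ≤ ‖(β j - β i) + t • (v j - v i)‖ + ‖(β j - β i) + t₀ • (v j - v i)‖ := norm_sub_le _ _
        _ ≤ 4 * δ + 4 * δ := add_le_add ht.2 ht₀.2
        _ = 8 * δ := by ring
    have h2 : |t - t₀| ≤ 8 * (δ / ‖v j - v i‖) := by
      rw [← mul_div_assoc, le_div_iff₀ hr]
      exact h1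
    rw [abs_le] at h2
    constructor <;> linarith
  refine (measure_mono hsub).trans ?_
  rw [Real.volume_Icc]
  apply ENNReal.ofReal_le_ofReal
  linarith

open Classical in
theorem l2 {I : Set ℝ} {δ : ℝ} (hδ : 0 < δ) (hδ1 : δ < 1) {ι : Type} [Fintype ι] (v β : ι → Vec d)
    (s : ι → ℝ) (hv : ∀ i, ‖v i‖ ≤ 1) (hsep : ∀ i j, i ≠ j → δ ≤ ‖v i - v j‖)
    (hs : ∀ i, Icc (s i - 3 / 2) (s i + 3 / 2) ⊆ I) {B : ℝ}
    (hB : ∀ i, ∑ j ∈ Finset.univ.filter (fun j => j ≠ i ∧ Inc I δ v β i j), δ / ‖v j - v i‖ ≤ B) :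
    ∫⁻ t : ℝ, ∫⁻ x : Vec d, Fe δ v β s x t ^ (2 : ℝ) ≤
      ENNReal.ofReal ((2 * δ) ^ d * om d * (Fintype.card ι * (3 + 16 * B))) := by
  set c : ℝ := (2 * δ) ^ d * om d with hc
  have hc0 : 0 ≤ c := mul_nonneg (by positivity) om_pos.le
  set g : ι → ℝ → Vec d → ℝ≥0∞ := fun i t x =>
    (Icc (s i - 3 / 2) (s i + 3 / 2)).indicator (fun _ => (1 : ℝ≥0∞)) t *
      (closedBall (β i + t • v i) (2 * δ)).indicator (fun _ => (1 : ℝ≥0∞)) x with hg
  have hgm : ∀ i t, Measurable (g i t) := by
    intro i t
    rw [hg]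
    exact (measurable_const.indicator isClosed_closedBall.measurableSet).const_mul _
  have hgg : ∀ i j t, Measurable fun x => g i t x * g j t x := fun i j t => (hgm i t).mul (hgm j t)
  have hpt : ∀ x t, Fe δ v β s x t ≤ ∑ i, g i t x := by
    intro x t
    unfold Fe
    refine Finset.sum_le_sum fun i _ => ?_
    by_cases hmem : (WithLp.toLp 2 (x, t) : Space d) ∈ tube δ (dir (v i)) (WithLp.toLp 2 (β i + s i • v i, s i))
    · rw [indicator_of_mem hmem]
      rw [tube_eq] at hmem
      obtain ⟨ht, hx⟩ := Pool.Agent.H803R2.KakFTO.tube_subset hδ hδ1 (fun _ => β i) (hv i) (s i) hmem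
      rw [hg]
      simp only
      rw [indicator_of_mem, indicator_of_mem, one_mul]
      · rw [mem_closedBall, dist_eq_norm]
        exact hx
      · exact ⟨ht.1, by linarith [ht.2]⟩
    · rw [indicator_of_notMem hmem]
      exact zero_le
  have hslice : ∀ t, ∫⁻ x : Vec d, Fe δ v β s x t ^ (2 : ℝ) ≤
      ∑ i, ∑ j, (It δ v β s i j).indicator (fun _ => ENNReal.ofReal c) t := by
    intro t
    calc ∫⁻ x : Vec d, Fe δ v β s x t ^ (2 : ℝ) ≤ ∫⁻ x : Vec d, ∑ i, ∑ j, g i t x * g j t x := by
          refine lintegral_mono fun x => ?_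
          rw [ENNReal.rpow_two, pow_two]
          refine (mul_le_mul' (hpt x t) (hpt x t)).trans (le_of_eq ?_)
          rw [Finset.sum_mul_sum]
      _ = ∑ i, ∑ j, ∫⁻ x : Vec d, g i t x * g j t x := by
          rw [lintegral_finsetSum _ (fun i _ => Finset.measurable_sum _ fun j _ => hgg i j t)]
          refine Finset.sum_congr rfl fun i _ => ?_
          rw [lintegral_finsetSum _ (fun j _ => hgg i j t)]
      _ ≤ ∑ i, ∑ j, (It δ v β s i j).indicator (fun _ => ENNReal.ofReal c) t := by
          refine Finset.sum_le_sum fun i _ => Finset.sum_le_sum fun j _ => ?_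
          by_cases ht : t ∈ It δ v β s i j
          · rw [indicator_of_mem ht]
            calc ∫⁻ x : Vec d, g i t x * g j t x ≤
                  ∫⁻ x : Vec d, (closedBall (β i + t • v i) (2 * δ)).indicator (fun _ => (1 : ℝ≥0∞)) x := by
                  refine lintegral_mono fun x => ?_
                  have h1 : g j t x ≤ 1 := by
                    rw [hg]
                    refine mul_le_one' ?_ ?_ <;> exact indicator_le_self' (fun _ _ => zero_le) _ |>.trans le_rfl
                  have h2 : g i t x ≤ (closedBall (β i + t • v i) (2 * δ)).indicator (fun _ => (1 : ℝ≥0∞)) x := by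
                    rw [hg]
                    refine mul_le_of_le_one_left' ?_
                    exact indicator_le_self' (fun _ _ => zero_le) _ |>.trans le_rfl
                  exact (mul_le_mul' h2 h1).trans (le_of_eq (mul_one _))
              _ = volume (closedBall (β i + t • v i) (2 * δ)) := by
                  rw [lintegral_indicator isClosed_closedBall.measurableSet, setLIntegral_one]
              _ = ENNReal.ofReal c := by
                  rw [Measure.addHaar_closedBall_center, vol_closedBall (by positivity)]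
          · rw [indicator_of_notMem ht]
            rw [nonpos_iff_eq_zero]
            rw [lintegral_eq_zero_iff (hgg i j t)]
            refine Filter.Eventually.of_forall fun x => ?_
            show g i t x * g j t x = 0
            by_contra hne
            apply ht
            have h1 : g i t x ≠ 0 := left_ne_zero_of_mul hne
            have h2 : g j t x ≠ 0 := right_ne_zero_of_mul hne
            rw [hg] at h1 h2
            have a1 := mem_of_indicator_ne_zero (left_ne_zero_of_mul h1)
            have a2 := mem_of_indicator_ne_zero (right_ne_zero_of_mul h1)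
            have a3 := mem_of_indicator_ne_zero (right_ne_zero_of_mul h2)
            refine ⟨a1, ?_⟩
            rw [mem_closedBall, dist_eq_norm] at a2 a3
            show ‖(β j - β i) + t • (v j - v i)‖ ≤ 4 * δ
            calc ‖(β j - β i) + t • (v j - v i)‖ = ‖(x - (β i + t • v i)) - (x - (β j + t • v j))‖ := by
                  congr 1
                  rw [smul_sub]; abel
              _ ≤ ‖x - (β i + t • v i)‖ + ‖x - (β j + t • v j)‖ := norm_sub_le _ _
              _ ≤ 2 * δ + 2 * δ := add_le_add a2 a3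
              _ = 4 * δ := by ring
  have hrow : ∀ i, ∑ j, volume (It δ v β s i j) ≤ ENNReal.ofReal (3 + 16 * B) := by
    intro i
    have h1 : ∀ j, volume (It δ v β s i j) ≤ ENNReal.ofReal
        ((if j = i then 3 else 0) + 16 * (if j ≠ i ∧ Inc I δ v β i j then δ / ‖v j - v i‖ else 0)) := by
      intro j
      by_cases hji : j = i
      · subst hji
        simp only [ne_eq, not_true_eq_false, false_and, if_true, if_false, mul_zero, add_zero]
        exact It_self δ v β s j j
      · by_cases hinc : Inc I δ v β i j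
        · rw [if_neg hji, if_pos ⟨hji, hinc⟩, zero_add]
          exact It_le hδ (hsep j i hji)
        · rw [It_empty (hs i) hinc]
          exact zero_le
    have hnn : ∀ j, 0 ≤ (if j = i then (3 : ℝ) else 0) +
        16 * (if j ≠ i ∧ Inc I δ v β i j then δ / ‖v j - v i‖ else 0) := by
      intro j
      have : 0 ≤ δ / ‖v j - v i‖ := by positivity
      split_ifs <;> positivity
    calc ∑ j, volume (It δ v β s i j) ≤ ∑ j, ENNReal.ofReal ((if j = i then 3 else 0) +
          16 * (if j ≠ i ∧ Inc I δ v β i j then δ / ‖v j - v i‖ else 0)) := Finset.sum_le_sum fun j _ => h1 j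
      _ = ENNReal.ofReal (∑ j, ((if j = i then (3 : ℝ) else 0) +
          16 * (if j ≠ i ∧ Inc I δ v β i j then δ / ‖v j - v i‖ else 0))) :=
          (ENNReal.ofReal_sum_of_nonneg fun j _ => hnn j).symm
      _ ≤ _ := by
          apply ENNReal.ofReal_le_ofReal
          rw [Finset.sum_add_distrib, ← Finset.mul_sum, Finset.sum_ite_eq' Finset.univ i (fun _ => (3 : ℝ)),
            if_pos (Finset.mem_univ i), ← Finset.sum_filter]
          have := hB i
          linarith
  calc ∫⁻ t : ℝ, ∫⁻ x : Vec d, Fe δ v β s x t ^ (2 : ℝ)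
      ≤ ∫⁻ t : ℝ, ∑ i, ∑ j, (It δ v β s i j).indicator (fun _ => ENNReal.ofReal c) t :=
        lintegral_mono hslice
    _ = ∑ i, ∑ j, ENNReal.ofReal c * volume (It δ v β s i j) := by
        have hm : ∀ i j, Measurable fun t => (It δ v β s i j).indicator (fun _ => ENNReal.ofReal c) t :=
          fun i j => measurable_const.indicator (It_meas δ v β s i j)
        rw [lintegral_finsetSum _ (fun i _ => Finset.measurable_sum _ fun j _ => hm i j)]
        refine Finset.sum_congr rfl fun i _ => ?_
        rw [lintegral_finsetSum _ (fun j _ => hm i j)]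
        refine Finset.sum_congr rfl fun j _ => ?_
        rw [lintegral_indicator (It_meas δ v β s i j), setLIntegral_const]
    _ = ENNReal.ofReal c * ∑ i, ∑ j, volume (It δ v β s i j) := by
        simp_rw [← Finset.mul_sum]
    _ ≤ ENNReal.ofReal c * ∑ _i : ι, ENNReal.ofReal (3 + 16 * B) :=
        mul_le_mul_right (Finset.sum_le_sum fun i _ => hrow i) _
    _ = ENNReal.ofReal (c * (Fintype.card ι * (3 + 16 * B))) := by
        rw [Finset.sum_const, Finset.card_univ, nsmul_eq_mul, ENNReal.ofReal_mul hc0,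
          ENNReal.ofReal_mul (Nat.cast_nonneg _), ENNReal.ofReal_natCast]

/-- The sum of indicators is zero or at least one. -/
theorem Fe_zero_or {ι : Type} [Fintype ι] (δ : ℝ) (v β : ι → Vec d) (s : ι → ℝ) (x : Vec d) (t : ℝ) :
    Fe δ v β s x t = 0 ∨ 1 ≤ Fe δ v β s x t := by
  classical
  by_cases h : ∃ i, (WithLp.toLp 2 (x, t) : Space d) ∈ tube δ (dir (v i)) (WithLp.toLp 2 (β i + s i • v i, s i))
  · right
    obtain ⟨i, hi⟩ := h
    unfold Fe
    calc (1 : ℝ≥0∞) = (tube δ (dir (v i)) (WithLp.toLp 2 (β i + s i • v i, s i))).indicator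
          (fun _ => (1 : ℝ≥0∞)) (WithLp.toLp 2 (x, t)) := by rw [indicator_of_mem hi]
      _ ≤ _ := Finset.single_le_sum (f := fun i => (tube δ (dir (v i)) (WithLp.toLp 2 (β i + s i • v i, s i))).indicator
          (fun _ => (1 : ℝ≥0∞)) (WithLp.toLp 2 (x, t))) (fun _ _ => zero_le) (Finset.mem_univ i)
  · left
    unfold Fe
    apply Finset.sum_eq_zero
    intro i _
    rw [indicator_of_notMem (fun hi => h ⟨i, hi⟩)]

theorem Fe_le_card {ι : Type} [Fintype ι] (δ : ℝ) (v β : ι → Vec d) (s : ι → ℝ) (x : Vec d) (t : ℝ) :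
    Fe δ v β s x t ≤ (Fintype.card ι : ℝ≥0∞) := by
  unfold Fe
  calc ∑ i, (tube δ (dir (v i)) (WithLp.toLp 2 (β i + s i • v i, s i))).indicator (fun _ => (1 : ℝ≥0∞))
        (WithLp.toLp 2 (x, t)) ≤ ∑ _i : ι, (1 : ℝ≥0∞) := Finset.sum_le_sum fun i _ =>
        indicator_le_self' (fun _ _ => zero_le) _
    _ = _ := by simp

/-- From the exponent `2` to any exponent. -/
theorem Fe_pow {ι : Type} [Fintype ι] (δ : ℝ) (v β : ι → Vec d) (s : ι → ℝ) (x : Vec d) (t : ℝ) {q : ℝ}
    (hq : 0 < q) : Fe δ v β s x t ^ q ≤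
      ENNReal.ofReal ((Fintype.card ι : ℝ) ^ (max (q - 2) 0)) * Fe δ v β s x t ^ (2 : ℝ) := by
  rcases Fe_zero_or δ v β s x t with h | h
  · rw [h, ENNReal.zero_rpow_of_pos hq]
    exact zero_le
  have hN : (1 : ℝ) ≤ Fintype.card ι := by
    have h1 := h.trans (Fe_le_card δ v β s x t)
    exact_mod_cast h1
  rcases le_total q 2 with h2 | h2
  · rw [max_eq_right (by linarith), Real.rpow_zero, ENNReal.ofReal_one, one_mul]
    exact ENNReal.rpow_le_rpow_of_exponent_le h h2
  · rw [max_eq_left (by linarith)]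
    have hF0 : Fe δ v β s x t ≠ 0 := fun h0 => by rw [h0] at h; exact absurd h (by simp)
    have hFt : Fe δ v β s x t ≠ ∞ := ne_top_of_le_ne_top (ENNReal.natCast_ne_top _) (Fe_le_card δ v β s x t)
    calc Fe δ v β s x t ^ q = Fe δ v β s x t ^ (q - 2) * Fe δ v β s x t ^ (2 : ℝ) := by
          rw [← ENNReal.rpow_add _ _ hF0 hFt, sub_add_cancel]
      _ ≤ _ := by
          gcongr
          rw [← ENNReal.ofReal_rpow_of_pos (by linarith), ENNReal.ofReal_natCast]
          exact ENNReal.rpow_le_rpow (Fe_le_card δ v β s x t) (by linarith)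

end Pool.Agent.L0h24.SS
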