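import Pool.Agent.H810R3.Tub.Bounds

set_option autoImplicit false

/-! Maps with simple real eigenvalues: the quantitative statement, by compactness. -/

open MeasureTheory Set Metric Topology

namespace Pool.Agent.L0h24.SS

open Pool.Agent.H810R3.Tub

variable {d : ℕ}

/-- For every `t` in `I` the generalised eigenspace of `Λ` for the real number `-t` has dimension at
most one (`-t` is not an eigenvalue of `Λ`, or a simple one). -/
def SimpleOn (I : Set ℝ) (Λ : Vec d →L[ℝ] Vec d) : Prop :=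
  ∀ t ∈ I, Module.finrank ℝ (Module.End.maxGenEigenspace (Λ : Vec d →ₗ[ℝ] Vec d) (-t)) ≤ 1

theorem simple_zero {I : Set ℝ} {Λ : Vec d →L[ℝ] Vec d} (hΛ : SimpleOn I Λ) {t s : ℝ} (htI : t ∈ I)
    {e x : Vec d} (he : ‖e‖ = 1)
    (h1 : Λ e + t • e = 0) (h2 : inner ℝ x e = (0 : ℝ)) (h3 : Λ x + t • x = s • e) : x = 0 := by
  have hf := hΛ t htI
  rw [finrank_le_one_iff] at hf
  obtain ⟨v, hv⟩ := hf
  have hA : ∀ y : Vec d, ((Λ : Vec d →ₗ[ℝ] Vec d) - (-t) • (1 : Vec d →ₗ[ℝ] Vec d)) y = Λ y + t • y := by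
    intro y
    rw [LinearMap.sub_apply, LinearMap.smul_apply, neg_smul, sub_neg_eq_add]
    rfl
  have me : e ∈ Module.End.maxGenEigenspace (Λ : Vec d →ₗ[ℝ] Vec d) (-t) := by
    rw [Module.End.mem_maxGenEigenspace]
    refine ⟨1, ?_⟩
    rw [pow_one]
    exact (hA e).trans h1
  have mx : x ∈ Module.End.maxGenEigenspace (Λ : Vec d →ₗ[ℝ] Vec d) (-t) := by
    rw [Module.End.mem_maxGenEigenspace]
    refine ⟨2, ?_⟩
    rw [pow_two, Module.End.mul_apply]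
    have h4 := hA ((Λ : Vec d →ₗ[ℝ] Vec d) x + t • x)
    have h5 : (Λ : Vec d →ₗ[ℝ] Vec d) x + t • x = s • e := h3
    rw [hA x, h3]
    refine (hA (s • e)).trans ?_
    rw [map_smul, smul_comm t s e, ← smul_add, h1, smul_zero]
  obtain ⟨c1, hc1⟩ := hv ⟨e, me⟩
  obtain ⟨c2, hc2⟩ := hv ⟨x, mx⟩
  have e1 : c1 • (v : Vec d) = e := congrArg Subtype.val hc1
  have e2 : c2 • (v : Vec d) = x := congrArg Subtype.val hc2
  have hc10 : c1 ≠ 0 := by
    rintro rfl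
    rw [zero_smul] at e1
    rw [← e1, norm_zero] at he
    exact zero_ne_one he
  have e3 : x = (c2 / c1) • e := by
    rw [← e1, smul_smul, div_mul_cancel₀ _ hc10, e2]
  rw [e3, inner_smul_left, real_inner_self_eq_norm_sq, he] at h2
  simp only [conj_trivial, one_pow, mul_one] at h2
  rw [e3, h2, zero_smul]

/-- The quantitative form of simplicity. -/
theorem lemK {I : Set ℝ} (hI : IsClosed I) (Λ : Vec d →L[ℝ] Vec d) (hΛ : SimpleOn I Λ) :
    ∃ η : ℝ, 0 < η ∧ η ≤ 1 ∧ ∃ C : ℝ, 1 ≤ C ∧ ∀ t ∈ I, ∀ e : Vec d, ‖e‖ = 1 → ‖Λ e + t • e‖ ≤ η → ∀ (x : Vec d) (s : ℝ),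
      ‖x‖ ≤ C * (|inner ℝ x e| + ‖Λ x + t • x - s • e‖) := by
  set T : ℝ := ‖Λ‖ + 1 with hT
  set T' : ℝ := ‖Λ‖ + T + 1 with hT'
  have hΛ0 : 0 ≤ ‖Λ‖ := norm_nonneg _
  set g : ℝ × Vec d × Vec d × ℝ → ℝ := fun p =>
    ‖Λ p.2.1 + p.1 • p.2.1‖ + (|inner ℝ p.2.2.1 p.2.1| + ‖Λ p.2.2.1 + p.1 • p.2.2.1 - p.2.2.2 • p.2.1‖)
    with hg
  have hgc : Continuous g := by
    rw [hg]
    fun_prop
  set Q : Set (ℝ × Vec d × Vec d × ℝ) :=
    (Icc (-T) T ∩ I) ×ˢ sphere (0 : Vec d) 1 ×ˢ sphere (0 : Vec d) 1 ×ˢ Icc (-T') T' with hQ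
  have hQc : IsCompact Q :=
    (isCompact_Icc.inter_right hI).prod ((isCompact_sphere _ _).prod ((isCompact_sphere _ _).prod isCompact_Icc))
  have hpos : ∀ p ∈ Q, 0 < g p := by
    rintro ⟨t, e, x, s⟩ ⟨⟨_, htI⟩, he, hx, _⟩
    have he1 : ‖e‖ = 1 := by simpa using he
    have hx1 : ‖x‖ = 1 := by simpa using hx
    by_contra hcon
    have hle : ‖Λ e + t • e‖ + (|inner ℝ x e| + ‖Λ x + t • x - s • e‖) ≤ 0 := not_lt.1 hcon
    have a1 := norm_nonneg (Λ e + t • e)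
    have a2 := abs_nonneg (inner ℝ x e : ℝ)
    have a3 := norm_nonneg (Λ x + t • x - s • e)
    have b1 : ‖Λ e + t • e‖ = 0 := by linarith
    have b2 : |(inner ℝ x e : ℝ)| = 0 := by linarith
    have b3 : ‖Λ x + t • x - s • e‖ = 0 := by linarith
    have := simple_zero hΛ htI he1 (norm_eq_zero.1 b1) (abs_eq_zero.1 b2) (sub_eq_zero.1 (norm_eq_zero.1 b3))
    rw [this, norm_zero] at hx1
    exact zero_ne_one hx1
  have hm : ∃ m : ℝ, 0 < m ∧ m ≤ 1 ∧ ∀ p ∈ Q, m ≤ g p := by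
    rcases Q.eq_empty_or_nonempty with h | h
    · exact ⟨1, one_pos, le_rfl, fun p hp => by rw [h] at hp; exact absurd hp (notMem_empty p)⟩
    · obtain ⟨p, hp, hpm⟩ := hQc.exists_isMinOn h hgc.continuousOn
      exact ⟨min (g p) 1, lt_min (hpos p hp) one_pos, min_le_right _ _, fun y hy => (min_le_left _ _).trans (hpm hy)⟩
  obtain ⟨m, hm0, hm1, hm⟩ := hm
  refine ⟨m / 2, by positivity, by linarith, 2 / m, ?_, ?_⟩
  · rw [le_div_iff₀ hm0]; linarith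
  intro t htI e he hte x s
  have ht : |t| ≤ T := by
    have h1 : ‖t • e‖ = |t| := by rw [norm_smul, he, mul_one, Real.norm_eq_abs]
    have h2 : ‖t • e‖ ≤ ‖Λ e + t • e‖ + ‖Λ e‖ := by
      calc ‖t • e‖ = ‖(Λ e + t • e) - Λ e‖ := by congr 1; abel
        _ ≤ _ := norm_sub_le _ _
    have h3 : ‖Λ e‖ ≤ ‖Λ‖ := by
      have := Λ.le_opNorm e
      rwa [he, mul_one] at this
    rw [← h1, hT]
    linarith
  -- the normalised inequality
  have key : ∀ (y : Vec d) (r : ℝ), ‖y‖ = 1 → m / 2 ≤ |inner ℝ y e| + ‖Λ y + t • y - r • e‖ := by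
    intro y r hy
    rcases le_or_gt |r| T' with hr | hr
    · have h1 := hm (t, e, y, r) ⟨⟨abs_le.1 ht, htI⟩, by simpa using he, by simpa using hy, abs_le.1 hr⟩
      have h2 : g (t, e, y, r) = ‖Λ e + t • e‖ + (|inner ℝ y e| + ‖Λ y + t • y - r • e‖) := rfl
      rw [h2] at h1
      linarith
    · have h1 : ‖r • e‖ = |r| := by rw [norm_smul, he, mul_one, Real.norm_eq_abs]
      have h2 : ‖r • e‖ ≤ ‖Λ y + t • y - r • e‖ + (‖Λ y‖ + ‖t • y‖) := by
        have h6 : r • e = (Λ y + t • y) - (Λ y + t • y - r • e) := by abel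
        calc ‖r • e‖ = ‖(Λ y + t • y) - (Λ y + t • y - r • e)‖ := by rw [← h6]
          _ ≤ ‖Λ y + t • y‖ + ‖Λ y + t • y - r • e‖ := norm_sub_le _ _
          _ ≤ (‖Λ y‖ + ‖t • y‖) + ‖Λ y + t • y - r • e‖ := by
              gcongr
              exact norm_add_le _ _
          _ = _ := by ring
      have h3 : ‖Λ y‖ ≤ ‖Λ‖ := by
        have := Λ.le_opNorm y
        rwa [hy, mul_one] at this
      have h4 : ‖t • y‖ ≤ T := by rw [norm_smul, hy, mul_one, Real.norm_eq_abs]; exact ht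
      have h5 := abs_nonneg (inner ℝ y e : ℝ)
      linarith
  rcases eq_or_ne x 0 with hx | hx
  · rw [hx, norm_zero]
    positivity
  have hx0 : 0 < ‖x‖ := norm_pos_iff.2 hx
  have h1 := key (‖x‖⁻¹ • x) (‖x‖⁻¹ * s) (by
    rw [norm_smul, norm_inv, norm_norm, inv_mul_cancel₀ hx0.ne'])
  have h2 : Λ (‖x‖⁻¹ • x) + t • ‖x‖⁻¹ • x - (‖x‖⁻¹ * s) • e = ‖x‖⁻¹ • (Λ x + t • x - s • e) := by
    rw [map_smul, smul_comm t, mul_smul, smul_sub, smul_add]
  rw [h2, inner_smul_left, norm_smul, norm_inv, norm_norm, conj_trivial, abs_mul,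
    abs_of_pos (inv_pos.2 hx0), ← mul_add, inv_mul_eq_div, le_div_iff₀ hx0] at h1
  rw [div_mul_eq_mul_div, le_div_iff₀ hm0]
  linarith

end Pool.Agent.L0h24.SS
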